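import Pool.Agent.H548.All

/-!
# Countably complete Jónsson filters reflect the Jónsson property
-/

set_option autoImplicit false

namespace Pool.Agent.Results.MP_68c39c_lc.CompleteJonssonFilter

open Cardinal Ordinal Set Order Pool.Agent.H548

/-- A Jónsson filter on `κ`: all its members have size `κ`, and for every function `f` on the
finite subsets of `κ` with values in `κ` the finite subsets of some member of the filter do not
take all the values. -/
def IsJonssonFilter (κ : Cardinal.{0}) (𝓕 : Filter κ.ord.ToType) : Prop :=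
  (∀ A ∈ 𝓕, #A = κ) ∧ ∀ f : Finset κ.ord.ToType → κ.ord.ToType, ∃ A ∈ 𝓕, ∃ y,
    ∀ s : Finset κ.ord.ToType, (s : Set κ.ord.ToType) ⊆ A → f s ≠ y

theorem not_sparse {κ : Cardinal.{0}} (hκ : κ.IsRegular) (h0 : ℵ₀ < κ) (hl : ∀ μ < κ, succ μ < κ)
    (h : ∃ 𝓕 : Filter κ.ord.ToType, CountableInterFilter 𝓕 ∧ IsJonssonFilter κ 𝓕) :
    ¬ JonssonSparse κ := by
  intro hJ
  obtain ⟨𝓕, hci, hun, hJf⟩ := h
  obtain ⟨F, hF, hmain⟩ := chain_bounded_all hκ h0 hl hJ
  let P : List (Set Ordinal.{0}) → Set Ordinal.{0} → Prop := fun L X =>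
    ∃ A ∈ 𝓕, X = clo (PP κ F F L) (PP_lt hκ F F L) A ∧ X ≠ Set.Iio κ.ord
  have hP : ∀ L, ∃ X, P L X := by
    intro L
    obtain ⟨f, hf⟩ := exists_fun_clo h0 (PP κ F F L) (PP_lt hκ F F L)
    obtain ⟨A, hA, y, hy⟩ := hJf f
    refine ⟨_, A, hA, rfl, fun hc => ?_⟩
    have h1 := hf A (hun A hA) y hy
    rw [hc] at h1
    exact h1 (toO_lt y)
  obtain ⟨X, hX⟩ := exists_seq hP
  choose A hA hXA hXne using hX
  have hall : (⋂ n, A n) ∈ 𝓕 := countable_iInter_mem.2 hA
  have hsubX : ∀ n, ∀ a ∈ A n, toO a ∈ X n := fun n a ha => by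
    rw [hXA n]
    exact sub_clo _ _ _ a ha
  have hne : ∀ n, (X n).Nonempty := by
    intro n
    have h1 : #(A n) ≠ 0 := by
      rw [hun _ (hA n)]
      exact (Cardinal.aleph0_pos.trans h0).ne'
    rw [Cardinal.mk_ne_zero_iff] at h1
    obtain ⟨a, ha⟩ := h1
    exact ⟨_, hsubX n a ha⟩
  have hsub : ∀ n, X n ⊆ Set.Iio κ.ord := fun n => by
    rw [hXA n]
    exact clo_sub _ _ _
  have hcl : ∀ n, ClosedUnder F (X n) ∧ ClosedUnder F (X n) ∧
      ∀ i < n, ∀ β ∈ X n, sSup (X i ∩ Set.Iio β) ∈ X n := fun n => by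
    apply PP_closed hF hF (hsub n) (hne n)
    have h1 := clo_closed (PP κ F F (List.ofFn fun i : Fin n => X i)) (PP_lt hκ F F _) (A n)
    rw [← hXA n] at h1
    exact h1
  obtain ⟨η, hη, hbd⟩ := hmain X (fun n => ⟨hsub n, hXne n, (hcl n).1⟩)
    (fun i n hin β hβ => (hcl n).2.2 i hin β hβ)
  obtain ⟨b, hb, hlt⟩ := unbdd_of_card h0 (hun _ hall) (ofO η hη)
  rw [← toO_lt_toO, toO_mk] at hlt
  have h2 := hbd (toO b) fun n => hsubX n b (Set.mem_iInter.1 hb n)
  exact absurd hlt (not_lt.2 h2)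

/-- Let `κ` be a weakly inaccessible cardinal that carries a countably complete Jónsson filter. Then
the regular Jónsson cardinals below `κ` are unbounded in `κ`, and if `κ` is a Mahlo cardinal then
the strongly inaccessible Jónsson cardinals below `κ` are stationary in `κ`. -/
theorem result (κ : Cardinal.{0}) (hκ : κ.IsRegular) (h0 : ℵ₀ < κ) (hl : ∀ μ < κ, succ μ < κ)
    (h : ∃ 𝓕 : Filter κ.ord.ToType, CountableInterFilter 𝓕 ∧ IsJonssonFilter κ 𝓕) :
    (∀ lam < κ, ∃ μ, lam < μ ∧ μ < κ ∧ μ.IsRegular ∧ IsJonsson μ) ∧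
      (IsMahlo κ → IsStationary (JonssonBelow κ)) := by
  have h1 := not_sparse hκ h0 hl h
  unfold JonssonSparse at h1
  push Not at h1
  exact ⟨h1.2, h1.1⟩

end Pool.Agent.Results.MP_68c39c_lc.CompleteJonssonFilter
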