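import Pool.Agent.H548.All

/-!
# Countable chains of closed sets have bounded intersection
-/

set_option autoImplicit false

namespace Pool.Agent.Results.MP_68c39c_lc.CountableChains

open Cardinal Ordinal Set Order Pool.Agent.H548

/-- Let `κ` be a weakly inaccessible cardinal below which the Jónsson cardinals are sparse. Then
there is a function `F` on the finite sequences such that for every sequence `X 0, X 1, …` of proper
subsets of `κ`, each closed under `F`, and such that `X n` is closed under the map
`β ↦ sup (X i ∩ β)` for all `i < n`, the intersection of all the `X n` is bounded in `κ`. -/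
theorem result (κ : Cardinal.{0}) (hκ : κ.IsRegular) (h0 : ℵ₀ < κ) (hl : ∀ μ < κ, succ μ < κ)
    (h : JonssonSparse κ) :
    ∃ F : List Ordinal.{0} → Ordinal.{0}, (∀ l : List Ordinal.{0}, F l < κ.ord) ∧
      ∀ X : ℕ → Set Ordinal.{0},
        (∀ n, X n ⊆ Set.Iio κ.ord ∧ X n ≠ Set.Iio κ.ord ∧ ClosedUnder F (X n)) →
        (∀ i n, i < n → ∀ β ∈ X n, sSup (X i ∩ Set.Iio β) ∈ X n) →
        ∃ η < κ.ord, ∀ y, (∀ n, y ∈ X n) → y ≤ η :=
  chain_bounded_all hκ h0 hl h

end Pool.Agent.Results.MP_68c39c_lc.CountableChains
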