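import Pool.Agent.H548.WeakC

/-!
# A criterion for the weak compactness of the least strongly inaccessible Jónsson cardinal
-/

set_option autoImplicit false

namespace Pool.Agent.Results.MP_68c39c_lc.WeakCompactnessCriterion

open Cardinal Ordinal Set Order Pool.Agent.H548

/-- `X 0, X 1, …` is a play against `Φ`: every `X n` is a proper unbounded subset of `κ` which is
closed under the function `Φ` assigns to the list `X 0, …, X (n - 1)` of the earlier sets. -/
def IsPlay (κ : Cardinal.{0}) (Φ : List (Set Ordinal.{0}) → List Ordinal.{0} → Ordinal.{0})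
    (X : ℕ → Set Ordinal.{0}) : Prop :=
  ∀ n, X n ⊆ Set.Iio κ.ord ∧ X n ≠ Set.Iio κ.ord ∧ (∀ a < κ.ord, ∃ x ∈ X n, a < x) ∧
    ClosedUnder (Φ (List.ofFn fun i : Fin n => X i)) (X n)

/-- Let `κ` be a strongly inaccessible Jónsson cardinal below which the Jónsson cardinals are sparse.
Then `κ` is weakly compact if and only if for every list `(d β)_{β < κ}` of sets of ordinals and
every `Φ` there is a play against `Φ` such that nodes `d β ∩ δ` of unboundedly many heights `δ` are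
good for all the sets of the play. -/
theorem result (κ : Cardinal.{0}) (hκ : κ.IsInaccessible) (hJ : IsJonsson κ)
    (hns : JonssonSparse κ) :
    IsWeaklyCompact κ ↔
      ∀ d : Ordinal.{0} → Set Ordinal.{0},
        ∀ Φ : List (Set Ordinal.{0}) → List Ordinal.{0} → Ordinal.{0},
          (∀ L l, Φ L l < κ.ord) →
            ∃ X : ℕ → Set Ordinal.{0}, IsPlay κ Φ X ∧
              ∀ a < κ.ord, ∃ δ β, a < δ ∧ δ ≤ β ∧ β < κ.ord ∧ ∀ n, GoodNode d (X n) δ β := by
  constructor
  · intro hwc d Φ hΦ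
    obtain ⟨B, hB⟩ := hwc.hasBranches hκ d
    let G : List Ordinal.{0} → Ordinal.{0} := fun l => match l with
      | [γ] => idx d γ B
      | _ => 0
    have hseq : ∀ L : List (Set Ordinal.{0}), ∃ X : Set Ordinal.{0}, X ⊆ Set.Iio κ.ord ∧
        X ≠ Set.Iio κ.ord ∧ (∀ a < κ.ord, ∃ x ∈ X, a < x) ∧
        ClosedUnder (Φ L) X ∧ ∀ γ ∈ X, idx d γ B ∈ X := by
      intro L
      obtain ⟨X, h1, h2, h3, h4⟩ := hJ.closed
        (trunc κ.ord (comb fun i => if i = 0 then Φ L else G))
        (fun l => trunc_lt hκ.isRegular.ord_pos _ l)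
      have hne : X.Nonempty := by
        obtain ⟨x, hx, -⟩ := h3 0 hκ.isRegular.ord_pos
        exact ⟨x, hx⟩
      refine ⟨X, h1, h2, h3, fun l hl => ?_, fun γ hγ => ?_⟩
      · exact closed_comb hne h4 0 l hl (by simpa using hΦ L l)
      · have hγκ : γ < κ.ord := h1 hγ
        have h5 := closed_comb hne h4 1 [γ] (by simpa using hγ) (by
          show (if (1 : ℕ) = 0 then Φ L else G) [γ] < κ.ord
          rw [if_neg one_ne_zero]
          show idx d γ B < κ.ord
          obtain ⟨β, hβ, h6, h7⟩ := hB γ hγκ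
          exact (idx_spec d γ B h6 (fun x hx => (h7 x hx).symm)).2.trans_lt hβ)
        exact h5
    obtain ⟨X, hX⟩ := exists_seq hseq
    refine ⟨X, fun n => ⟨(hX n).1, (hX n).2.1, (hX n).2.2.1, (hX n).2.2.2.1⟩, fun a ha => ?_⟩
    have ha1 : a + 1 < κ.ord := (Cardinal.isSuccLimit_ord hκ.aleph0_lt.le).add_one_lt ha
    obtain ⟨β, hβ, h1, h2⟩ := hB (a + 1) ha1
    refine ⟨a + 1, β, Order.lt_add_one_iff.2 le_rfl, h1, hβ, fun n γ hγ hγδ => ?_⟩
    rw [idx_congr d γ (B' := B) (fun x hx => (h2 x (hx.trans_le hγδ)).symm)]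
    exact (hX n).2.2.2.2 γ hγ
  · intro h
    apply HasBranches.isWeaklyCompact hκ
    intro d
    obtain ⟨F, hF, hmain⟩ := chain_bounded_all hκ.isRegular hκ.aleph0_lt (inacc_limit hκ) hns
    have hT : ∀ l, trunc κ.ord (splL d) l < κ.ord := trunc_lt hκ.isRegular.ord_pos _
    obtain ⟨X, hX, hgood⟩ := h d (PP κ F (trunc κ.ord (splL d))) (fun L l => PP_lt hκ.isRegular _ _ L l)
    have hcl : ∀ n, ClosedUnder F (X n) ∧ ClosedUnder (trunc κ.ord (splL d)) (X n) ∧
        ∀ i < n, ∀ β ∈ X n, sSup (X i ∩ Set.Iio β) ∈ X n := fun n => by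
      refine PP_closed hF hT (hX n).1 ?_ (hX n).2.2.2
      obtain ⟨x, hx, -⟩ := (hX n).2.2.1 0 hκ.isRegular.ord_pos
      exact ⟨x, hx⟩
    obtain ⟨η, hη, hbd⟩ := hmain X (fun n => ⟨(hX n).1, (hX n).2.1, (hcl n).1⟩)
      (fun i n hin β hβ => (hcl n).2.2 i hin β hβ)
    exact exists_branch hκ (fun n => (hX n).1) (fun n => (hX n).2.2.1) (fun n => (hcl n).2.1)
      hη hbd hgood

end Pool.Agent.Results.MP_68c39c_lc.WeakCompactnessCriterion
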